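import Mathlib

/-!
# Rational roots of the Stern polynomials

The rational roots of the Stern polynomials `B_n`, `n ≥ 1`, are exactly `-1`, `-1/2`, `-1/3`, `0`.

The point is that no `B_n` with `n ≥ 1` vanishes at a number `a` with `0 < |a| ≤ 1/4`: by induction the
ratio of the larger to the smaller of `|B_n(a)|`, `|B_{n+1}(a)|` is at least `2`. As `B_n(0) = 1` for odd
`n` and the coefficients are nonnegative, a nonzero rational root is of the form `-1/m`, and `m ≤ 3`.
-/

set_option autoImplicit false

open Polynomial

namespace Pool.Agent.Results.MP_32086b_nt.RationalRoots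

/-- The Stern polynomials: `B_0 = 0`, `B_1 = 1`, `B_{2n} = t B_n` and `B_{2n+1} = B_n + B_{n+1}` for
`n ≥ 1`. -/
noncomputable def stern : ℕ → ℤ[X]
  | 0 => 0
  | 1 => 1
  | (n + 2) =>
    if (n + 2) % 2 = 0 then X * stern ((n + 2) / 2)
    else stern ((n + 2) / 2) + stern ((n + 2) / 2 + 1)
  decreasing_by all_goals omega

lemma stern_zero : stern 0 = 0 := by rw [stern]

lemma stern_one : stern 1 = 1 := by rw [stern]

lemma stern_even (n : ℕ) (hn : 1 ≤ n) : stern (2 * n) = X * stern n := by
  obtain ⟨k, rfl⟩ : ∃ k, n = k + 1 := ⟨n - 1, by omega⟩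
  have h : 2 * (k + 1) = (2 * k) + 2 := by ring
  rw [h, stern, if_pos (by omega)]
  congr 2
  omega

lemma stern_odd (n : ℕ) (hn : 1 ≤ n) : stern (2 * n + 1) = stern n + stern (n + 1) := by
  obtain ⟨k, rfl⟩ : ∃ k, n = k + 1 := ⟨n - 1, by omega⟩
  have h : 2 * (k + 1) + 1 = (2 * k + 1) + 2 := by ring
  rw [h, stern, if_neg (by omega)]
  have h2 : (2 * k + 1 + 2) / 2 = k + 1 := by omega
  rw [h2]

/-- one of the two numbers is at least twice the other one, and not both are zero -/
def Apart (u v : ℚ) : Prop := (2 * |v| ≤ |u| ∨ 2 * |u| ≤ |v|) ∧ (u ≠ 0 ∨ v ≠ 0)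

lemma apart_step {a u v : ℚ} (ha : |a| ≤ 1 / 4) (h : Apart u v) :
    2 * |a * v| ≤ |u + v| ∧ u + v ≠ 0 := by
  have h1 : |a * v| ≤ |v| / 4 := by
    rw [abs_mul]
    have := mul_le_mul_of_nonneg_right ha (abs_nonneg v)
    linarith
  have h3 : |u| ≤ |u + v| + |v| := by
    have := abs_add_le (u + v) (-v)
    rw [abs_neg, add_neg_cancel_right] at this
    exact this
  have h4 : |v| ≤ |u + v| + |u| := by
    have := abs_add_le (u + v) (-u)
    rw [abs_neg] at this
    have e : u + v + -u = v := by ring
    rw [e] at this
    exact this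
  have hu := abs_nonneg u
  have hv := abs_nonneg v
  obtain ⟨h, hne⟩ := h
  have hpos : 0 < |u + v| := by
    rcases hne with hne | hne
    · have := abs_pos.2 hne
      rcases h with h | h <;> linarith
    · have := abs_pos.2 hne
      rcases h with h | h <;> linarith
  refine ⟨?_, abs_pos.1 hpos⟩
  rcases h with h | h <;> linarith

/-- the value at `a` of the Stern polynomial `B_n` -/
noncomputable def val (a : ℚ) (n : ℕ) : ℚ := aeval a (stern n)

lemma val_even (a : ℚ) (n : ℕ) (hn : 1 ≤ n) : val a (2 * n) = a * val a n := by
  unfold val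
  rw [stern_even n hn, map_mul, aeval_X]

lemma val_odd (a : ℚ) (n : ℕ) (hn : 1 ≤ n) : val a (2 * n + 1) = val a n + val a (n + 1) := by
  unfold val
  rw [stern_odd n hn, map_add]

lemma val_one (a : ℚ) : val a 1 = 1 := by
  unfold val
  rw [stern_one, map_one]

lemma apart_all {a : ℚ} (ha : |a| ≤ 1 / 4) : ∀ n : ℕ, 1 ≤ n → Apart (val a n) (val a (n + 1)) := by
  intro n
  induction n using Nat.strong_induction_on with
  | _ n ih =>
    intro hn
    rcases Nat.even_or_odd' n with ⟨k, rfl | rfl⟩
    · have hk : 1 ≤ k := by omega
      obtain ⟨h1, h2⟩ := ih k (by omega) hk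
      have h3 : Apart (val a (k + 1)) (val a k) := ⟨h1.symm, h2.symm⟩
      obtain ⟨h4, h5⟩ := apart_step ha h3
      rw [val_even a k hk, val_odd a k hk, add_comm (val a k)]
      exact ⟨Or.inr h4, Or.inr h5⟩
    · rcases Nat.eq_zero_or_pos k with rfl | hk
      · have e1 : val a (2 * 0 + 1) = 1 := by simpa using val_one a
        have e2 : val a (2 * 0 + 1 + 1) = a := by
          have := val_even a 1 le_rfl
          rw [val_one, mul_one] at this
          simpa using this
        rw [e1, e2]
        refine ⟨Or.inl ?_, Or.inl one_ne_zero⟩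
        rw [abs_one]
        linarith
      · obtain ⟨h4, h5⟩ := apart_step ha (ih k (by omega) hk)
        have e : 2 * k + 1 + 1 = 2 * (k + 1) := by ring
        rw [e, val_even a (k + 1) (by omega), val_odd a k hk]
        exact ⟨Or.inl h4, Or.inl h5⟩

/-- no Stern polynomial `B_n`, `n ≥ 1`, vanishes at a number `a` with `0 < |a| ≤ 1/4` -/
lemma val_ne_zero {a : ℚ} (ha : |a| ≤ 1 / 4) (ha0 : a ≠ 0) : ∀ n : ℕ, 1 ≤ n → val a n ≠ 0 := by
  intro n
  induction n using Nat.strong_induction_on with
  | _ n ih =>
    intro hn
    rcases Nat.even_or_odd' n with ⟨k, rfl | rfl⟩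
    · have hk : 1 ≤ k := by omega
      rw [val_even a k hk]
      exact mul_ne_zero ha0 (ih k (by omega) hk)
    · rcases Nat.eq_zero_or_pos k with rfl | hk
      · have e1 : val a (2 * 0 + 1) = 1 := by simpa using val_one a
        rw [e1]
        exact one_ne_zero
      · rw [val_odd a k hk]
        exact (apart_step ha (apart_all ha k hk)).2

/-- the constant coefficient is `0` for even and `1` for odd `n` -/
lemma coeff_zero : ∀ n : ℕ, (stern n).coeff 0 = (n % 2 : ℕ) := by
  intro n
  induction n using Nat.strong_induction_on with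
  | _ n ih =>
    rcases Nat.even_or_odd' n with ⟨k, rfl | rfl⟩
    · rcases Nat.eq_zero_or_pos k with rfl | hk
      · rw [mul_zero, stern_zero]
        simp
      · rw [stern_even k hk]
        simp
    · rcases Nat.eq_zero_or_pos k with rfl | hk
      · rw [mul_zero, zero_add, stern_one]
        simp
      · rw [stern_odd k hk, coeff_add, ih k (by omega), ih (k + 1) (by omega)]
        norm_cast
        omega

/-- the values at nonnegative numbers are nonnegative, and positive at positive ones -/
lemma val_pos {a : ℚ} (ha : 0 < a) : ∀ n : ℕ, 1 ≤ n → 0 < val a n := by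
  intro n
  induction n using Nat.strong_induction_on with
  | _ n ih =>
    intro hn
    rcases Nat.even_or_odd' n with ⟨k, rfl | rfl⟩
    · have hk : 1 ≤ k := by omega
      rw [val_even a k hk]
      exact mul_pos ha (ih k (by omega) hk)
    · rcases Nat.eq_zero_or_pos k with rfl | hk
      · have e1 : val a (2 * 0 + 1) = 1 := by simpa using val_one a
        rw [e1]
        exact one_pos
      · rw [val_odd a k hk]
        exact add_pos (ih k (by omega) hk) (ih (k + 1) (by omega) (by omega))

/-- a root of an odd-indexed Stern polynomial -/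
lemma odd_root {a : ℚ} {n : ℕ} (hn : Odd n) (h : val a n = 0) :
    a = -1 ∨ a = -1 / 2 ∨ a = -1 / 3 := by
  have hn1 : 1 ≤ n := hn.pos
  have hc : (stern n).coeff 0 = 1 := by
    rw [coeff_zero, Nat.odd_iff.1 hn]
    rfl
  have ha0 : a ≠ 0 := by
    rintro rfl
    unfold val at h
    have h2 : aeval (0 : ℚ) (stern n) = (((stern n).coeff 0 : ℤ) : ℚ) := by
      rw [← coeff_zero_eq_aeval_zero']
      simp
    rw [h2, hc] at h
    norm_num at h
  -- the numerator divides the constant coefficient
  have hnum : a.num ∣ 1 := by
    have h2 := num_dvd_of_is_root (A := ℤ) (K := ℚ) (p := stern n) (r := a) h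
    rw [hc] at h2
    have h3 : (IsFractionRing.num ℤ a) ∣ 1 := h2
    have h4 : Associated a.num (IsFractionRing.num ℤ a) := (Rat.isFractionRingNum a).symm
    exact h4.dvd.trans h3
  have hden := a.den_pos
  have hform : a = (a.num : ℚ) / (a.den : ℚ) := (Rat.num_div_den a).symm
  rcases Int.isUnit_iff.1 (isUnit_of_dvd_one hnum) with h1 | h1
  · exfalso
    have hpos : 0 < a := by
      rw [hform, h1]
      have : (0 : ℚ) < a.den := by exact_mod_cast hden
      positivity
    exact (val_pos hpos n hn1).ne' h
  · have h5 : a = -1 / (a.den : ℚ) := by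
      rw [h1] at hform
      push_cast at hform
      exact hform
    have h6 : a.den < 4 := by
      by_contra hc
      have h7 : (4 : ℚ) ≤ a.den := by exact_mod_cast not_lt.1 hc
      have h8 : |a| ≤ 1 / 4 := by
        rw [h5, neg_div, abs_neg, abs_of_pos (by positivity)]
        exact one_div_le_one_div_of_le (by norm_num) h7
      exact val_ne_zero h8 ha0 n hn1 h
    obtain ⟨d, hd⟩ : ∃ d, d = a.den := ⟨_, rfl⟩
    rw [← hd] at h5 h6 hden
    have h9 : d = 1 ∨ d = 2 ∨ d = 3 := by omega
    rcases h9 with rfl | rfl | rfl
    · left; rw [h5]; norm_num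
    · right; left; rw [h5]; norm_num
    · right; right; rw [h5]; norm_num

/-- **The rational roots of the Stern polynomials.** A rational number `a` is a root of some Stern
polynomial `B_n` with `n ≥ 1` if and only if `a` is `-1`, `-1/2`, `-1/3` or `0`. -/
theorem result (a : ℚ) : (∃ n : ℕ, 1 ≤ n ∧ aeval a (stern n) = 0) ↔
    a = -1 ∨ a = -1 / 2 ∨ a = -1 / 3 ∨ a = 0 := by
  constructor
  · rintro ⟨n, hn, h⟩
    have key : ∀ n : ℕ, 1 ≤ n → val a n = 0 → a = -1 ∨ a = -1 / 2 ∨ a = -1 / 3 ∨ a = 0 := by
      intro n
      induction n using Nat.strong_induction_on with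
      | _ n ih =>
        intro hn h
        rcases Nat.even_or_odd' n with ⟨k, rfl | rfl⟩
        · have hk : 1 ≤ k := by omega
          rw [val_even a k hk] at h
          rcases mul_eq_zero.1 h with h | h
          · exact Or.inr (Or.inr (Or.inr h))
          · exact ih k (by omega) hk h
        · rcases odd_root (odd_two_mul_add_one k) h with h | h | h
          · exact Or.inl h
          · exact Or.inr (Or.inl h)
          · exact Or.inr (Or.inr (Or.inl h))
    exact key n hn h
  · have v1 := val_one a
    have v2 : val a 2 = a := by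
      have := val_even a 1 le_rfl
      rw [v1] at this
      simpa using this
    have v3 : val a 3 = 1 + a := by
      have := val_odd a 1 le_rfl
      rw [v1] at this
      norm_num at this
      rw [v2] at this
      exact this
    have v5 : val a 5 = 2 * a + 1 := by
      have := val_odd a 2 (by norm_num)
      norm_num at this
      rw [v2, v3] at this
      rw [this]; ring
    have v10 : val a 10 = a * (2 * a + 1) := by
      have := val_even a 5 (by norm_num)
      norm_num at this
      rw [v5] at this
      exact this
    have v4 : val a 4 = a * a := by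
      have := val_even a 2 (by norm_num)
      norm_num at this
      rw [v2] at this
      exact this
    have v6 : val a 6 = a * (1 + a) := by
      have := val_even a 3 (by norm_num)
      norm_num at this
      rw [v3] at this
      exact this
    have v11 : val a 11 = (2 * a + 1) + a * (1 + a) := by
      have := val_odd a 5 (by norm_num)
      norm_num at this
      rw [v5, v6] at this
      exact this
    have v21 : val a 21 = (3 * a + 1) * (a + 1) := by
      have := val_odd a 10 (by norm_num)
      norm_num at this
      rw [v10, v11] at this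
      rw [this]; ring
    rintro (rfl | rfl | rfl | rfl)
    · exact ⟨3, by norm_num, by have := v3; unfold val at this; rw [this]; norm_num⟩
    · exact ⟨5, by norm_num, by have := v5; unfold val at this; rw [this]; norm_num⟩
    · exact ⟨21, by norm_num, by have := v21; unfold val at this; rw [this]; norm_num⟩
    · exact ⟨2, by norm_num, by have := v2; unfold val at this; rw [this]⟩

end Pool.Agent.Results.MP_32086b_nt.RationalRoots
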